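import Pool.Agent.H38.AB.Targets
import Pool.Agent.H74.AE.HA
import Pool.Agent.H87.AE.HB

/-!
# Points on `a x ^ e + b y ^ f = E`, uniformly in the exponents
-/

set_option autoImplicit false

namespace Pool.Agent.H49.AB

open Pool.Agent.H38.AE Pool.Agent.H87.AE Pool.Agent.H74.AE.HA Polynomial
open Pool.Agent.H38.AB (T_HCU T_HAU)

/-- The explicit bound for the intersection of the curve with a curve of small degree. -/
theorem hb_explicit (D e f : ℕ) (hDe : D < e) (hDf : D < f) (a b E : ℤ) (ha : a ≠ 0) (hb : b ≠ 0)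
    (hE : E ≠ 0) (h : ℕ × ℕ → ℚ) (hh : ∃ m ∈ mon D, h m ≠ 0) (P : Finset (ℤ × ℤ))
    (hP : ∀ t ∈ P, 1 ≤ t.1 ∧ 1 ≤ t.2 ∧ a * t.1 ^ e + b * t.2 ^ f = E ∧
      ∑ m ∈ mon D, h m * (t.1 : ℚ) ^ m.1 * (t.2 : ℚ) ^ m.2 = 0) :
    P.card ≤ (f + D) * e := by
  have haq : (a : ℚ) ≠ 0 := by exact_mod_cast ha
  have hbq : (b : ℚ) ≠ 0 := by exact_mod_cast hb
  have hEq : (E : ℚ) ≠ 0 := by exact_mod_cast hE
  have he0 : 0 < e := by omega
  have hf0 : 0 < f := by omega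
  set u : ℚ := -((a : ℚ) / b) with hu
  set v : ℚ := (E : ℚ) / a with hv
  have hu0 : u ≠ 0 := neg_ne_zero.2 (div_ne_zero haq hbq)
  have hv0 : v ≠ 0 := div_ne_zero hEq haq
  set c : ℚ[X] := C u * ((X : ℚ[X]) ^ e - C v) with hc
  set F : ℚ[X][X] := (X : ℚ[X][X]) ^ f - C c with hF
  have hFirr : Irreducible F := irr_F e f u v he0 hf0 hu0 hv0
  have hFmon : F.Monic := Polynomial.monic_X_pow_sub_C _ hf0.ne'
  have hFdeg : F.natDegree = f := Polynomial.natDegree_X_pow_sub_C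
  have hW0 := WW_ne_zero D h hh
  have hWd := WW_natDegree D h
  set W := WW D h with hW
  have hr0 : resultant F W ≠ 0 := res_ne_zero F W hFirr hFmon hW0 (by omega)
  have hcdeg : c.natDegree ≤ e := by
    refine (Polynomial.natDegree_C_mul_le _ _).trans ?_
    rw [Polynomial.natDegree_X_pow_sub_C]
  have hFc : ∀ l, (F.coeff l).natDegree ≤ e := by
    intro l
    rw [hF, Polynomial.coeff_sub, Polynomial.coeff_X_pow, Polynomial.coeff_C]
    refine (Polynomial.natDegree_sub_le _ _).trans (max_le ?_ ?_)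
    · split_ifs <;> simp
    · split_ifs
      · exact hcdeg
      · simp
  have hWc : ∀ l, (W.coeff l).natDegree ≤ e := fun l =>
    (WW_coeff_natDegree D h l).trans hDe.le
  have hrd : (resultant F W).natDegree ≤ (f + D) * e := by
    refine (res_natDegree F W e hFc hWc).trans ?_
    rw [hFdeg]
    exact Nat.mul_le_mul_right _ (by omega)
  obtain ⟨p, q, -, -, hpq⟩ := exists_mul_add_mul_eq_C_resultant (m := F.natDegree)
    (n := W.natDegree) F W le_rfl le_rfl (Or.inl (by omega))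
  have hroot : ∀ t ∈ P, (resultant F W).IsRoot ((t.1 : ℤ) : ℚ) := by
    intro t ht
    obtain ⟨-, -, h1, h2⟩ := hP t ht
    have e1 : ((F.eval (C ((t.2 : ℤ) : ℚ))).eval ((t.1 : ℤ) : ℚ)) = 0 := by
      have h1q : (a : ℚ) * (t.1 : ℚ) ^ e + b * (t.2 : ℚ) ^ f = E := by exact_mod_cast h1
      rw [hF, hc, hu, hv]
      simp only [eval_sub, eval_pow, eval_X, eval_C, eval_mul]
      field_simp
      linarith
    have e2 : ((W.eval (C ((t.2 : ℤ) : ℚ))).eval ((t.1 : ℤ) : ℚ)) = 0 := by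
      rw [hW, WW_eval]; exact h2
    have h3 := congrArg (fun z : ℚ[X][X] =>
      (z.eval (C ((t.2 : ℤ) : ℚ))).eval ((t.1 : ℤ) : ℚ)) hpq
    simp only [eval_add, eval_mul, eval_C, e1, e2, zero_mul, zero_add] at h3
    exact h3.symm
  have hinj : Set.InjOn (fun t : ℤ × ℤ => ((t.1 : ℤ) : ℚ)) (P : Set (ℤ × ℤ)) := by
    intro t ht t' ht' htt
    have htt0 : ((t.1 : ℤ) : ℚ) = ((t'.1 : ℤ) : ℚ) := htt
    have htt' : t.1 = t'.1 := by exact_mod_cast htt0
    obtain ⟨-, hy, h1, -⟩ := hP t ht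
    obtain ⟨-, hy', h1', -⟩ := hP t' ht'
    have h2 : b * t.2 ^ f = b * t'.2 ^ f := by
      rw [htt'] at h1
      linarith
    have h3 : t.2 ^ f = t'.2 ^ f := mul_left_cancel₀ hb h2
    have h4 : t.2 = t'.2 := by
      exact (pow_left_inj₀ (by omega) (by omega) (by omega)).1 h3
    exact Prod.ext htt' h4
  calc P.card = (P.image (fun t : ℤ × ℤ => ((t.1 : ℤ) : ℚ))).card :=
        (Finset.card_image_of_injOn hinj).symm
    _ ≤ (resultant F W).roots.toFinset.card := by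
        refine Finset.card_le_card ?_
        intro x hx
        obtain ⟨t, ht, rfl⟩ := Finset.mem_image.1 hx
        rw [Multiset.mem_toFinset, Polynomial.mem_roots hr0]
        exact hroot t ht
    _ ≤ (resultant F W).roots.card := Multiset.toFinset_card_le _
    _ ≤ (resultant F W).natDegree := Polynomial.card_roots' _
    _ ≤ (f + D) * e := hrd

/-- The points modulo one prime. -/
theorem mod_count (hHR : T_HR) (D ℓ : ℕ) (e f U V : ℕ) (a b E : ℤ) (hD : 1 ≤ D) (he : D < e)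
    (hf : D < f) (hℓp : ℓ.Prime) (ha : a ≠ 0) (hb : b ≠ 0) (hE : E ≠ 0)
    (hℓT : ¬ ℓ ∣ a.natAbs * b.natAbs * E.natAbs * (e * f))
    (hineq : Nat.factorial ((D + 1) * (D + 2) / 2) * (U * V) ^ (D * (D + 1) * (D + 2) / 6) <
        ℓ ^ ((D + 1) * (D + 2) / 2 * ((D + 1) * (D + 2) / 2 - 1) / 2)) :
    ((Finset.Icc 1 U ×ˢ Finset.Icc 1 V).filter
      (fun t => a * (t.1 : ℤ) ^ e + b * (t.2 : ℤ) ^ f = E)).card ≤ (f + D) * e * (ℓ * f) := by
  classical
  obtain ⟨P, hP⟩ : ∃ P : Finset (ℕ × ℕ), P = (Finset.Icc 1 U ×ˢ Finset.Icc 1 V).filter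
    (fun t => a * (t.1 : ℤ) ^ e + b * (t.2 : ℤ) ^ f = E) := ⟨_, rfl⟩
  rw [← hP]
  haveI : Fact ℓ.Prime := ⟨hℓp⟩
  have hℓ : ∀ n : ℕ, n ∣ a.natAbs * b.natAbs * E.natAbs * (e * f) → ¬ ℓ ∣ n :=
    fun n hn h => hℓT (h.trans hn)
  have hℓa : ¬ (ℓ : ℤ) ∣ a := by
    rw [← Int.dvd_natAbs, Int.natCast_dvd_natCast]
    exact hℓ _ (((dvd_mul_right _ _).mul_right _).mul_right _)
  have hℓb : ¬ (ℓ : ℤ) ∣ b := by
    rw [← Int.dvd_natAbs, Int.natCast_dvd_natCast]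
    exact hℓ _ (((dvd_mul_left _ _).mul_right _).mul_right _)
  have hℓE : ¬ (ℓ : ℤ) ∣ E := by
    rw [← Int.dvd_natAbs, Int.natCast_dvd_natCast]
    exact hℓ _ ((dvd_mul_left _ _).mul_right _)
  have hℓe : ¬ ℓ ∣ e := hℓ _ ((dvd_mul_right _ _).mul_left _)
  have hℓf : ¬ ℓ ∣ f := hℓ _ ((dvd_mul_left _ _).mul_left _)
  let π : ℕ × ℕ → ZMod ℓ × ZMod ℓ := fun t => ((t.1 : ZMod ℓ), (t.2 : ZMod ℓ))
  have hPm : ∀ t ∈ P, (1 ≤ t.1 ∧ t.1 ≤ U) ∧ (1 ≤ t.2 ∧ t.2 ≤ V) ∧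
      a * (t.1 : ℤ) ^ e + b * (t.2 : ℤ) ^ f = E := by
    intro t ht
    rw [hP, Finset.mem_filter, Finset.mem_product, Finset.mem_Icc, Finset.mem_Icc] at ht
    exact ⟨ht.1.1, ht.1.2, ht.2⟩
  have himg : (P.image π).card ≤ ℓ * f := by
    refine classes a b E e f (by omega) hℓb _ fun w hw => ?_
    obtain ⟨t, ht, rfl⟩ := Finset.mem_image.1 hw
    have := congrArg (Int.cast : ℤ → ZMod ℓ) (hPm t ht).2.2
    push_cast at this
    exact this
  have hfib : ∀ w ∈ P.image π, (P.filter (fun t => π t = w)).card ≤ (f + D) * e := by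
    intro w _
    let g : ℕ × ℕ ↪ ℤ × ℤ := ⟨fun t => ((t.1 : ℤ), (t.2 : ℤ)), fun t t' h => by
      simp only [Prod.mk.injEq, Nat.cast_inj] at h
      exact Prod.ext h.1 h.2⟩
    have hQ : ∀ t ∈ (P.filter (fun t => π t = w)).map g, 1 ≤ t.1 ∧ t.1 ≤ U ∧ 1 ≤ t.2 ∧
        t.2 ≤ V ∧ a * t.1 ^ e + b * t.2 ^ f = E := by
      intro t ht
      obtain ⟨t', ht', rfl⟩ := Finset.mem_map.1 ht
      obtain ⟨h1, h2, h3⟩ := hPm t' (Finset.mem_filter.1 ht').1
      refine ⟨?_, ?_, ?_, ?_, h3⟩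
      · show (1 : ℤ) ≤ (t'.1 : ℤ)
        exact_mod_cast h1.1
      · show (t'.1 : ℤ) ≤ (U : ℤ)
        exact_mod_cast h1.2
      · show (1 : ℤ) ≤ (t'.2 : ℤ)
        exact_mod_cast h2.1
      · show (t'.2 : ℤ) ≤ (V : ℤ)
        exact_mod_cast h2.2
    have hcong : ∀ t ∈ (P.filter (fun t => π t = w)).map g,
        ∀ t' ∈ (P.filter (fun t => π t = w)).map g,
        (ℓ : ℤ) ∣ t.1 - t'.1 ∧ (ℓ : ℤ) ∣ t.2 - t'.2 := by
      intro t ht t' ht'
      obtain ⟨u, hu, rfl⟩ := Finset.mem_map.1 ht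
      obtain ⟨u', hu', rfl⟩ := Finset.mem_map.1 ht'
      have h1 : π u = π u' := (Finset.mem_filter.1 hu).2.trans (Finset.mem_filter.1 hu').2.symm
      simp only [π, Prod.mk.injEq] at h1
      refine ⟨?_, ?_⟩
      · rw [← ZMod.intCast_zmod_eq_zero_iff_dvd]
        show (((u.1 : ℤ) - (u'.1 : ℤ) : ℤ) : ZMod ℓ) = 0
        push_cast
        rw [h1.1, sub_self]
      · rw [← ZMod.intCast_zmod_eq_zero_iff_dvd]
        show (((u.2 : ℤ) - (u'.2 : ℤ) : ℤ) : ZMod ℓ) = 0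
        push_cast
        rw [h1.2, sub_self]
    obtain ⟨h, hne, hzero⟩ := hHR D ℓ a b E e f U V hℓp (by omega) (by omega) hℓa hℓb hℓE hℓe
      hℓf hineq _ hQ hcong
    have := hb_explicit D e f he hf a b E ha hb hE h hne
      ((P.filter (fun t => π t = w)).map g) (fun t ht => by
        obtain ⟨h1, -, h3, -, h5⟩ := hQ t ht
        exact ⟨h1, h3, h5, hzero t ht⟩)
    rwa [Finset.card_map] at this
  exact (Finset.card_le_mul_card_image P ((f + D) * e) hfib).trans (Nat.mul_le_mul_left _ himg)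

/-- HAU -/
theorem pf_HAU (hHCU : T_HCU) (hHR : T_HR) : T_HAU := by
  classical
  intro D ε hD hε
  obtain ⟨κ, hκ⟩ : ∃ κ : ℝ, κ = 4 / (3 * ((D : ℝ) + 3)) := ⟨_, rfl⟩
  have hD1 : (1 : ℝ) ≤ D := by exact_mod_cast hD
  have hκ0 : 0 < κ := by rw [hκ]; positivity
  have hκ1 : κ ≤ 1 / 3 := by
    rw [hκ, div_le_div_iff₀ (by positivity) (by norm_num)]
    linarith
  obtain ⟨s, q1, q2, hs, hq1, hq2, hDq, hexp⟩ := expo D
  rw [← hκ] at hexp ⊢
  obtain ⟨X₀, hX₀2, hX₀⟩ := hHCU ε hε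
  have hs1 : (1 : ℝ) ≤ s.factorial := by exact_mod_cast Nat.factorial_pos s
  obtain ⟨X₁, hX₁⟩ : ∃ X₁ : ℝ, X₁ = max X₀ (2 * s.factorial) := ⟨_, rfl⟩
  have hX₁0 : 0 < X₁ := by rw [hX₁]; exact lt_max_of_lt_left (by linarith)
  refine ⟨(1 + D) * (2 + 2 * s.factorial) + X₁ ^ 2, by positivity, ?_⟩
  intro X e f U V a b E hX he hf heX hfX ha hb hE haX hbX hEX hU hV hUX hVX
  have hX1 : (1 : ℝ) ≤ X := by linarith
  have hX0 : (0 : ℝ) < X := by linarith
  have hU1 : (1 : ℝ) ≤ U := by exact_mod_cast hU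
  have hV1 : (1 : ℝ) ≤ V := by exact_mod_cast hV
  have hUV1 : (1 : ℝ) ≤ (U : ℝ) * V := by nlinarith
  have hUV0 : (0 : ℝ) < (U : ℝ) * V := by linarith
  have hUVκ : (1 : ℝ) ≤ ((U : ℝ) * V) ^ κ := Real.one_le_rpow hUV1 hκ0.le
  have hXε : (1 : ℝ) ≤ X ^ ε := Real.one_le_rpow hX1 hε.le
  have hX10 : (1 : ℝ) ≤ X ^ (10 * ε) := Real.one_le_rpow hX1 (by positivity)
  rcases lt_or_ge X X₁ with hlt | hge
  · -- few points
    have h1 : (((Finset.Icc 1 U ×ˢ Finset.Icc 1 V).filter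
      (fun t => a * (t.1 : ℤ) ^ e + b * (t.2 : ℤ) ^ f = E)).card : ℝ) ≤ (U : ℝ) * V := by
      have h2 : ((Finset.Icc 1 U ×ˢ Finset.Icc 1 V).filter
        (fun t => a * (t.1 : ℤ) ^ e + b * (t.2 : ℤ) ^ f = E)).card ≤ U * V := by
        refine (Finset.card_filter_le _ _).trans ?_
        rw [Finset.card_product, Nat.card_Icc, Nat.card_Icc]
        simp
      exact_mod_cast h2
    have h3 : (U : ℝ) * V ≤ X₁ ^ 2 := by
      rw [sq]
      exact mul_le_mul (hUX.trans hlt.le) (hVX.trans hlt.le) (by positivity) hX₁0.le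
    have h4 : (0 : ℝ) ≤ (1 + D) * (2 + 2 * s.factorial) := by positivity
    have h5 : X₁ ^ 2 ≤ (1 + D) * (2 + 2 * s.factorial) + X₁ ^ 2 := by linarith
    have h6 : (1 : ℝ) ≤ X ^ (10 * ε) * ((U : ℝ) * V) ^ κ := by nlinarith
    have h7 : (0 : ℝ) ≤ (1 + D) * (2 + 2 * s.factorial) + X₁ ^ 2 := by positivity
    calc _ ≤ (U : ℝ) * V := h1
      _ ≤ ((1 + D) * (2 + 2 * s.factorial) + X₁ ^ 2) * 1 := by linarith
      _ ≤ ((1 + D) * (2 + 2 * s.factorial) + X₁ ^ 2) * (X ^ (10 * ε) * ((U : ℝ) * V) ^ κ) :=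
          mul_le_mul_of_nonneg_left h6 h7
      _ = _ := by ring
  · -- the prime
    have hXX₀ : X₀ ≤ X := (le_max_left _ _).trans (hX₁ ▸ hge)
    have hXs : 2 * (s.factorial : ℝ) ≤ X := (le_max_right _ _).trans (hX₁ ▸ hge)
    obtain ⟨T, hT⟩ : ∃ T : ℕ, T = a.natAbs * b.natAbs * E.natAbs * (e * f) := ⟨_, rfl⟩
    have ha' : 1 ≤ a.natAbs := Int.natAbs_pos.2 ha
    have hb' : 1 ≤ b.natAbs := Int.natAbs_pos.2 hb
    have hE' : 1 ≤ E.natAbs := Int.natAbs_pos.2 hE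
    have he1 : 1 ≤ e := by omega
    have hf1 : 1 ≤ f := by omega
    have hT1 : 1 ≤ T := by
      rw [hT]
      exact Nat.mul_pos (Nat.mul_pos (Nat.mul_pos ha' hb') hE') (Nat.mul_pos he1 hf1)
    have hTlog : Real.log T ≤ 10 * X ^ ε := by
      have e1 : (1 : ℝ) ≤ e := by exact_mod_cast he1
      have f1 : (1 : ℝ) ≤ f := by exact_mod_cast hf1
      have a1 : (1 : ℝ) ≤ a.natAbs := by exact_mod_cast ha'
      have b1 : (1 : ℝ) ≤ b.natAbs := by exact_mod_cast hb'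
      have E1 : (1 : ℝ) ≤ E.natAbs := by exact_mod_cast hE'
      rw [hT]
      push_cast
      rw [Real.log_mul (by positivity) (by positivity), Real.log_mul (by positivity) (by positivity),
        Real.log_mul (by positivity) (by positivity), Real.log_mul (by positivity) (by positivity)]
      have h1 : Real.log e ≤ e := (Real.log_le_sub_one_of_pos (by positivity)).trans (by linarith)
      have h2 : Real.log f ≤ f := (Real.log_le_sub_one_of_pos (by positivity)).trans (by linarith)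
      have h3 : Real.log (|a| : ℤ) = Real.log (a.natAbs : ℝ) := by
        rw [Int.abs_eq_natAbs]; simp
      have h4 : Real.log (|b| : ℤ) = Real.log (b.natAbs : ℝ) := by
        rw [Int.abs_eq_natAbs]; simp
      have h5 : Real.log (|E| : ℤ) = Real.log (E.natAbs : ℝ) := by
        rw [Int.abs_eq_natAbs]; simp
      simp only [Nat.cast_natAbs, Int.cast_abs] at haX hbX hEX ⊢
      linarith
    obtain ⟨L, hL⟩ : ∃ L : ℝ, L = max 2 (2 * s.factorial * ((U : ℝ) * V) ^ κ) := ⟨_, rfl⟩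
    have hL2 : 2 ≤ L := by rw [hL]; exact le_max_left _ _
    have hLU : 2 * s.factorial * ((U : ℝ) * V) ^ κ ≤ L := by rw [hL]; exact le_max_right _ _
    have hUVX : ((U : ℝ) * V) ^ κ ≤ X := by
      have h1 : (U : ℝ) * V ≤ X ^ 2 := by
        rw [sq]; exact mul_le_mul hUX hVX (by positivity) hX0.le
      calc ((U : ℝ) * V) ^ κ ≤ (X ^ 2) ^ κ := Real.rpow_le_rpow hUV0.le h1 hκ0.le
        _ = X ^ (2 * κ) := by
            rw [← Real.rpow_natCast, ← Real.rpow_mul hX0.le]; norm_num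
        _ ≤ X ^ (1 : ℝ) := Real.rpow_le_rpow_of_exponent_le hX1 (by linarith)
        _ = X := Real.rpow_one X
    have hL3 : L ≤ X ^ 3 := by
      rw [hL]
      refine max_le ?_ ?_
      · have : (2 : ℝ) ≤ X ^ 1 := by rw [pow_one]; exact hX
        exact this.trans (pow_le_pow_right₀ hX1 (by norm_num))
      · calc 2 * s.factorial * ((U : ℝ) * V) ^ κ ≤ X * X :=
              mul_le_mul hXs hUVX (by positivity) hX0.le
          _ = X ^ 2 := by ring
          _ ≤ X ^ 3 := pow_le_pow_right₀ hX1 (by norm_num)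
    obtain ⟨ℓ, hℓp, hℓT, hLℓ, hℓC⟩ := hX₀ X L T hXX₀ (by linarith) hL3 hT1 hTlog
    have hineq : Nat.factorial ((D + 1) * (D + 2) / 2) * (U * V) ^ (D * (D + 1) * (D + 2) / 6) <
        ℓ ^ ((D + 1) * (D + 2) / 2 * ((D + 1) * (D + 2) / 2 - 1) / 2) := by
      rw [← hs, ← hq1, ← hq2]
      have hq2' : q2 ≠ 0 := by omega
      have h1 : 2 * s.factorial * ((U : ℝ) * V) ^ κ < ℓ := lt_of_le_of_lt hLU hLℓ
      have h2 : (2 * s.factorial * ((U : ℝ) * V) ^ κ) ^ q2 < (ℓ : ℝ) ^ q2 :=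
        pow_lt_pow_left₀ h1 (by positivity) hq2'
      have h3 : (((U : ℝ) * V) ^ κ) ^ q2 = ((U : ℝ) * V) ^ q1 := by
        rw [← Real.rpow_natCast, ← Real.rpow_mul (by positivity), hexp, Real.rpow_natCast]
      have h4 : (s.factorial : ℝ) ≤ (2 * s.factorial) ^ q2 := by
        have h5 : (1 : ℝ) ≤ 2 * s.factorial := by linarith
        calc (s.factorial : ℝ) ≤ 2 * s.factorial := by linarith
          _ ≤ (2 * s.factorial) ^ q2 := le_self_pow₀ h5 hq2'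
      rw [mul_pow, h3] at h2
      have h6 : (s.factorial : ℝ) * ((U : ℝ) * V) ^ q1 < (ℓ : ℝ) ^ q2 := by
        refine lt_of_le_of_lt ?_ h2
        exact mul_le_mul_of_nonneg_right h4 (by positivity)
      exact_mod_cast h6
    have hcard := mod_count hHR D ℓ e f U V a b E hD he hf hℓp ha hb hE (hT ▸ hℓT) hineq
    have hcard' : (((Finset.Icc 1 U ×ˢ Finset.Icc 1 V).filter
        (fun t => a * (t.1 : ℤ) ^ e + b * (t.2 : ℤ) ^ f = E)).card : ℝ) ≤
        ((f : ℝ) + D) * e * (ℓ * f) := by exact_mod_cast hcard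
    have hf1' : (1 : ℝ) ≤ f := by exact_mod_cast hf1
    have hfD : (f : ℝ) + D ≤ (1 + D) * X ^ ε := by
      have h1 : (D : ℝ) * 1 ≤ D * X ^ ε := mul_le_mul_of_nonneg_left hXε (by linarith)
      nlinarith
    have hLle : L ≤ (2 + 2 * s.factorial) * ((U : ℝ) * V) ^ κ := by
      rw [hL]
      refine max_le ?_ ?_ <;> nlinarith
    have hX3 : (0 : ℝ) ≤ X ^ (3 * ε) := by positivity
    have hX6 : X ^ ε * X ^ ε * (X ^ (3 * ε) * X ^ ε) = X ^ (6 * ε) := by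
      rw [← Real.rpow_add hX0, ← Real.rpow_add hX0, ← Real.rpow_add hX0]
      congr 1
      ring
    have hX610 : X ^ (6 * ε) ≤ X ^ (10 * ε) :=
      Real.rpow_le_rpow_of_exponent_le hX1 (by linarith)
    have hℓ0 : (0 : ℝ) ≤ ℓ := Nat.cast_nonneg _
    calc _ ≤ ((f : ℝ) + D) * e * (ℓ * f) := hcard'
      _ ≤ ((1 + D) * X ^ ε) * X ^ ε * ((L * X ^ (3 * ε)) * X ^ ε) := by gcongr
      _ = (1 + D) * L * (X ^ ε * X ^ ε * (X ^ (3 * ε) * X ^ ε)) := by ring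
      _ = (1 + D) * L * X ^ (6 * ε) := by rw [hX6]
      _ ≤ (1 + D) * ((2 + 2 * s.factorial) * ((U : ℝ) * V) ^ κ) * X ^ (10 * ε) := by gcongr
      _ = ((1 + D) * (2 + 2 * s.factorial)) * (X ^ (10 * ε) * ((U : ℝ) * V) ^ κ) := by ring
      _ ≤ ((1 + D) * (2 + 2 * s.factorial) + X₁ ^ 2) * (X ^ (10 * ε) * ((U : ℝ) * V) ^ κ) := by
          refine mul_le_mul_of_nonneg_right ?_ (by positivity)
          have : 0 ≤ X₁ ^ 2 := by positivity
          linarith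
      _ = _ := by ring

end Pool.Agent.H49.AB
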